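import Pool.Agent.Lib.MP_821f63_lc.Defs

namespace Pool.Agent.FS.PirScale

open Pool.Agent.Lib.MP_821f63_lc

/-- least length of a `k`-dimensional code that serves every family of `t` columns with at most
`d` different column indices -/
noncomputable def ASD (F : Type) [Field F] (k d t : ℕ) : ℕ :=
  sInf {n | ∃ G : Matrix (Fin k) (Fin n) F, G.rank = k ∧
    ∀ s : Fin t → Fin n, (Finset.univ.image s).card ≤ d → Serves G (fun a => G.col (s a))}

end Pool.Agent.FS.PirScale
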