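import Pool.Agent.FS.PirScale.Defs

/-! Rescaling for requests with a bounded number of different symbols. -/

namespace Pool.Agent.FS.PirScale

open Finset Submodule Pool.Agent.Lib.MP_821f63_lc

variable {F : Type} [Field F] {k t d : ℕ}

theorem matd {J : Type} [Fintype J] [DecidableEq J] (g : J → Fin k → F)
    (hs : Module.finrank F (span F (Set.range g)) = k)
    (h : ∀ s : Fin t → J, #(univ.image s) ≤ d → ∃ R : Fin t → Finset J,
      (∀ a b, a ≠ b → Disjoint (R a) (R b)) ∧ ∀ a, g (s a) ∈ span F (g '' R a)) :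
    ∃ G : Matrix (Fin k) (Fin (Fintype.card J)) F, G.rank = k ∧
      ∀ s : Fin t → Fin (Fintype.card J), #(univ.image s) ≤ d →
        Serves G (fun a => G.col (s a)) := by
  let e := Fintype.equivFin J
  refine ⟨Matrix.of fun i j => g (e.symm j) i, ?_, fun s hd => ?_⟩
  · rw [Matrix.rank_eq_finrank_span_cols]
    have h1 : Set.range (Matrix.of fun i j => g (e.symm j) i).col = Set.range g :=
      e.symm.surjective.range_comp g
    rw [h1, hs]
  · obtain ⟨R, h1, h2⟩ := h (e.symm ∘ s) (by rw [← image_image]; exact card_image_le.trans hd)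
    refine ⟨fun a => (R a).map e.toEmbedding, fun a b hab => (disjoint_map _).2 (h1 a b hab),
      fun a => span_mono ?_ (h2 a)⟩
    rintro _ ⟨j, hj, rfl⟩
    exact ⟨e j, by simpa using hj, funext fun i => by simp⟩

theorem optd [Fintype F] (k d t : ℕ) : ∃ G : Matrix (Fin k) (Fin (ASD F k d t)) F, G.rank = k ∧
    ∀ s : Fin t → Fin (ASD F k d t), #(univ.image s) ≤ d → Serves G (fun a => G.col (s a)) := by
  classical
  refine Nat.sInf_mem (s := {n | ∃ G : Matrix (Fin k) (Fin n) F, G.rank = k ∧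
    ∀ s : Fin t → Fin n, (Finset.univ.image s).card ≤ d → Serves G (fun a => G.col (s a))})
    ⟨_, matd (t := t) (Prod.fst : (Fin k → F) × Option (Fin t) → _) ?_
    fun s _ => ⟨fun a => {((s a).1, some a)}, fun a b hab => by simp [hab],
      fun a => subset_span (by simp)⟩⟩
  rw [Prod.range_fst, span_univ]
  simp

theorem copies [Fintype F] (k d t l : ℕ) (hl : 1 ≤ l) : ASD F k d (l * t) ≤ l * ASD F k d t := by
  obtain ⟨G, h1, h2⟩ := optd (F := F) k d t
  generalize ASD F k d t = n at G h1 h2 ⊢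
  refine (Nat.sInf_le (matd (t := l * t) (fun j : Fin l × Fin n => G.col j.2) ?_
    fun s hd => ?_)).trans (by simp)
  · have : Set.range (fun j : Fin l × Fin n => G.col j.2) = Set.range G.col := by
      ext v
      exact ⟨fun ⟨j, h⟩ => ⟨j.2, h⟩, fun ⟨j, h⟩ => ⟨(⟨0, hl⟩, j), h⟩⟩
    rw [this, ← Matrix.rank_eq_finrank_span_cols, h1]
  choose R r1 r2 using fun i : Fin l => h2 (fun a => (s (finProdFinEquiv (i, a))).2)
    ((card_le_card (t := (univ.image s).image Prod.snd) fun x hx => by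
      obtain ⟨a, -, rfl⟩ := mem_image.1 hx
      exact mem_image_of_mem _ (mem_image_of_mem _ (mem_univ _))).trans (card_image_le.trans hd))
  refine ⟨fun a => (R (finProdFinEquiv.symm a).1 (finProdFinEquiv.symm a).2).image
    (Prod.mk (finProdFinEquiv.symm a).1), fun a b hab => ?_, fun a => ?_⟩
  · obtain ⟨⟨i, a⟩, rfl⟩ := finProdFinEquiv.surjective a
    obtain ⟨⟨j, b⟩, rfl⟩ := finProdFinEquiv.surjective b
    simp only [Equiv.symm_apply_apply]
    refine disjoint_left.2 fun x ha hb => ?_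
    obtain ⟨y, y1, rfl⟩ := mem_image.1 ha
    obtain ⟨z, z1, h⟩ := mem_image.1 hb
    obtain ⟨rfl, rfl⟩ := Prod.ext_iff.1 h
    exact disjoint_left.1 (r1 j a b fun q => hab (by rw [q])) y1 z1
  · obtain ⟨⟨i, a⟩, rfl⟩ := finProdFinEquiv.surjective a
    simp only [Equiv.symm_apply_apply]
    refine span_mono ?_ (r2 i a)
    rintro _ ⟨y, y1, rfl⟩
    exact ⟨(i, y), mem_image_of_mem _ y1, rfl⟩

theorem resample {A : Type} [Fintype A] [DecidableEq A] (ht : 1 ≤ t) (τ : Fin t → A) (u : ℕ) :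
    ∃ ρ : Fin u → A, (∀ b, ∃ a, τ a = ρ b) ∧ ∀ D : Finset A,
      #{b | ρ b ∈ D} * t ≤ #{a | τ a ∈ D} * u + Fintype.card A * t := by
  let x : A → ℕ := fun σ => #{a | τ a = σ}
  let y : A → ℕ := fun σ => if x σ = 0 then 0 else x σ * u / t + 1
  have y1 : ∀ σ, x σ * u ≤ y σ * t := fun σ => by
    by_cases h : x σ = 0
    · simp [h]
    · simp only [y, if_neg h]
      exact (Nat.lt_mul_of_div_lt (Nat.lt_succ_self _) ht).le.trans (by rw [mul_comm])
  have y2 : ∀ σ, y σ * t ≤ x σ * u + t := fun σ => by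
    by_cases h : x σ = 0
    · simp [y, h]
    · simp only [y, if_neg h, add_mul, one_mul]
      exact Nat.add_le_add_right (Nat.div_mul_le_self _ _) _
  have sx : ∑ σ, x σ = t := (sum_card_fiberwise_eq_card_filter univ univ τ).trans (by simp)
  have su : u ≤ ∑ σ, y σ := by
    refine Nat.le_of_mul_le_mul_right ?_ ht
    rw [sum_mul, mul_comm u, ← sx, sum_mul, sx]
    exact sum_le_sum fun σ _ => y1 σ
  obtain ⟨f, hf⟩ := Function.Embedding.exists_of_card_le_finset (α := Fin u)
    (s := (univ : Finset A).sigma fun σ => range (y σ)) (by simpa using su)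
  have lt : ∀ b, (f b).2 < y (f b).1 := fun b => by simpa using hf ⟨b, rfl⟩
  have fib : ∀ σ, #{b | (f b).1 = σ} ≤ y σ := fun σ => by
    rw [← card_range (y σ)]
    refine card_le_card_of_injOn (fun b => (f b).2) (fun b hb => ?_) fun b hb c hc h => ?_
    · have := lt b
      simp at hb ⊢
      rwa [hb] at this
    · simp at hb hc
      exact f.injective (Sigma.ext (hb.trans hc.symm) (heq_of_eq h))
  refine ⟨fun b => (f b).1, fun b => ?_, fun D => ?_⟩
  · have : x (f b).1 ≠ 0 := fun h => by simpa [y, h] using lt b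
    obtain ⟨a, ha⟩ := card_ne_zero.1 this
    exact ⟨a, by simpa using ha⟩
  · rw [← sum_card_fiberwise_eq_card_filter, ← sum_card_fiberwise_eq_card_filter, sum_mul, sum_mul]
    calc _ ≤ ∑ σ ∈ D, (x σ * u + t) :=
          sum_le_sum fun σ _ => (Nat.mul_le_mul_right _ (fib σ)).trans (y2 σ)
      _ ≤ _ := by
          rw [sum_add_distrib, sum_const, smul_eq_mul]
          exact Nat.add_le_add_left (Nat.mul_le_mul_right _ (card_le_univ D)) _

theorem resample' {A I J : Type} [Fintype A] [DecidableEq A] [Fintype I] [Fintype J]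
    (h : Fintype.card J ≤ Fintype.card I) (τ : I → A) :
    ∃ ρ : J → A, (∀ b, ∃ a, τ a = ρ b) ∧ ∀ D : Finset A, #{b | ρ b ∈ D} * Fintype.card I ≤
      #{a | τ a ∈ D} * Fintype.card J + Fintype.card A * Fintype.card I := by
  rcases Nat.eq_zero_or_pos (Fintype.card I) with h0 | h0
  · have : IsEmpty J := Fintype.card_eq_zero_iff.1 (by omega)
    exact ⟨isEmptyElim, isEmptyElim, fun D => by simp [h0]⟩
  obtain ⟨ρ, p1, p2⟩ := resample h0 (τ ∘ (Fintype.equivFin I).symm) (Fintype.card J)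
  refine ⟨ρ ∘ Fintype.equivFin J, fun b => ?_, fun D => ?_⟩
  · obtain ⟨a, ha⟩ := p1 (Fintype.equivFin J b)
    exact ⟨_, ha⟩
  · have e1 : #{b | (ρ ∘ Fintype.equivFin J) b ∈ D} = #{b | ρ b ∈ D} :=
      card_equiv (Fintype.equivFin J) (by simp)
    have e2 : #{a | (τ ∘ (Fintype.equivFin I).symm) a ∈ D} = #{a | τ a ∈ D} :=
      card_equiv (Fintype.equivFin I).symm (by simp)
    rw [e1, ← e2]
    exact p2 D

theorem blow {V A : Type} [Fintype V] [DecidableEq V] [Fintype A] [DecidableEq A] {u : ℕ}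
    (hu : u ≤ t) (P : Fin u → V) : ∃ Q : Fin t → Option V, (∀ a v, Q a = some v → ∃ b, P b = v) ∧
      ∀ τ : Fin t → A, ∃ ρ : Fin u → A, (∀ b, ∃ a, Q a = some (P b) ∧ τ a = ρ b) ∧
        ∀ D : Finset A, #{b | ρ b ∈ D} * t ≤
          #{a | τ a ∈ D} * u + Fintype.card V * (Fintype.card A + 1) * t := by
  rcases Nat.eq_zero_or_pos u with rfl | u0
  · exact ⟨fun _ => none, by simp, fun τ => ⟨isEmptyElim, isEmptyElim, fun D => by simp⟩⟩
  let c : V → ℕ := fun σ => Fintype.card {b // P b = σ}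
  let w : V → ℕ := fun σ => c σ * t / u
  have sc : ∑ σ, c σ = u := by
    simp only [c, Fintype.card_subtype]
    exact (sum_card_fiberwise_eq_card_filter univ univ P).trans (by simp)
  have sw : ∑ σ, w σ ≤ t := by
    refine Nat.le_of_mul_le_mul_right ?_ u0
    rw [sum_mul, mul_comm t, ← sc, sum_mul, sc]
    exact sum_le_sum fun σ _ => Nat.div_mul_le_self _ _
  have cw : ∀ σ, c σ ≤ w σ := fun σ => (Nat.le_div_iff_mul_le u0).2 (Nat.mul_le_mul_left _ hu)
  obtain ⟨f⟩ := Function.Embedding.nonempty_of_card_le (α := Σ σ, Fin (w σ)) (β := Fin t)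
    (by simpa using sw)
  refine ⟨Function.extend f (fun x => some x.1) fun _ => none, fun a v h => ?_, fun τ => ?_⟩
  · by_cases q : ∃ x, f x = a
    · obtain ⟨⟨σ, x⟩, rfl⟩ := q
      rw [f.injective.extend_apply] at h
      obtain rfl : σ = v := Option.some.inj h
      have : c σ ≠ 0 := fun z => by simpa [w, z] using x.pos
      obtain ⟨b⟩ := Fintype.card_pos_iff.1 (Nat.pos_of_ne_zero this)
      exact ⟨b.1, b.2⟩
    · rw [Function.extend_apply' _ _ _ q] at h
      cases h
  choose ρ p1 p2 using fun σ => resample' (J := {b // P b = σ}) (I := Fin (w σ))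
    (by simpa using cw σ) fun x => τ (f ⟨σ, x⟩)
  refine ⟨fun b => ρ (P b) ⟨b, rfl⟩, fun b => ?_, fun D => ?_⟩
  · obtain ⟨x, hx⟩ := p1 (P b) ⟨b, rfl⟩
    exact ⟨f ⟨_, x⟩, f.injective.extend_apply _ _ _, hx⟩
  have e1 : #{b | ρ (P b) ⟨b, rfl⟩ ∈ D} = ∑ σ, #{b | ρ σ b ∈ D} := by
    rw [← card_sigma]
    refine (card_equiv (Equiv.sigmaFiberEquiv P) ?_).symm
    rintro ⟨σ, b, rfl⟩
    simp
  have e2 : ∑ σ, #{x : Fin (w σ) | τ (f ⟨σ, x⟩) ∈ D} ≤ #{a | τ a ∈ D} := by
    rw [← card_sigma]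
    exact card_le_card_of_injOn f (fun x hx => by simpa using hx) f.injective.injOn
  have e3 : ∀ σ, #{b | ρ σ b ∈ D} * t ≤
      #{x : Fin (w σ) | τ (f ⟨σ, x⟩) ∈ D} * u + (Fintype.card A + 1) * t := fun σ => by
    have a1 := p2 σ D
    have a2 : #{x : Fin (w σ) | τ (f ⟨σ, x⟩) ∈ D} ≤ w σ := (card_le_univ _).trans (by simp)
    have a3 : #{b | ρ σ b ∈ D} ≤ c σ := card_le_univ _
    have a4 : c σ * t ≤ u * (w σ + 1) := (Nat.lt_mul_div_succ _ u0).le
    have a5 := cw σ
    rw [Fintype.card_fin] at a1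
    change _ ≤ _ * c σ + _ at a1
    generalize #{b | ρ σ b ∈ D} = y at *
    generalize #{x : Fin (w σ) | τ (f ⟨σ, x⟩) ∈ D} = x at *
    rcases Nat.eq_zero_or_pos (w σ) with z | z
    · obtain rfl : y = 0 := by omega
      simp
    refine Nat.le_of_mul_le_mul_right ?_ z
    have b1 := Nat.mul_le_mul_right t a1
    have b2 := Nat.mul_le_mul_left x a4
    have b3 := Nat.mul_le_mul a2 hu
    nlinarith
  rw [e1, sum_mul]
  refine (sum_le_sum fun σ _ => e3 σ).trans ?_
  rw [sum_add_distrib, ← sum_mul, sum_const, card_univ, smul_eq_mul, mul_assoc]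
  exact Nat.add_le_add_right (Nat.mul_le_mul_right _ e2) _

theorem down [Fintype F] (k d t u : ℕ) (ht : 1 ≤ t) (hu : u ≤ t) :
    t * ASD F k d u ≤ u * ASD F k d t + Fintype.card (Fin k → F) *
      (Fintype.card (Fin k → F) * (Fintype.card (Finset (Fin k → F)) + 1)) * t := by
  classical
  obtain ⟨G, h1, h2⟩ := optd (F := F) k d t
  generalize ASD F k d t = n at G h1 h2 ⊢
  set T := Fintype.card (Fin k → F) * (Fintype.card (Finset (Fin k → F)) + 1) with hT
  have T1 : 1 ≤ T := Nat.mul_pos Fintype.card_pos (Nat.succ_pos _)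
  let m : (Fin k → F) → ℕ := fun v => #{j | G.col j = v}
  let M : (Fin k → F) → ℕ := fun v => if m v = 0 then 0 else (m v * u + T * t) / t
  have m0 : ∀ j, m (G.col j) ≠ 0 := fun j => card_ne_zero.2 ⟨j, by simp⟩
  have m1 : ∀ j : Σ v, Fin (M v), ∃ i, G.col i = j.1 := fun j => by
    have : m j.1 ≠ 0 := fun h => by simpa [M, h] using j.2.pos
    obtain ⟨a, ha⟩ := card_ne_zero.1 this
    exact ⟨a, by simpa using ha⟩
  have le : ASD F k d u ≤ Fintype.card (Σ v, Fin (M v)) := by
    refine Nat.sInf_le (matd (t := u) (fun j : Σ v, Fin (M v) => j.1) ?_ fun s hd => ?_)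
    · have : Set.range (fun j : Σ v, Fin (M v) => j.1) = Set.range G.col := by
        ext v
        refine ⟨fun ⟨j, h⟩ => h ▸ m1 j, ?_⟩
        rintro ⟨i, rfl⟩
        refine ⟨⟨G.col i, 0, ?_⟩, rfl⟩
        simp only [M, if_neg (m0 i)]
        exact Nat.div_pos ((Nat.le_mul_of_pos_left t T1).trans (Nat.le_add_left _ _)) ht
      rw [this, ← Matrix.rank_eq_finrank_span_cols, h1]
    rcases Nat.eq_zero_or_pos u with rfl | u0
    · exact ⟨isEmptyElim, isEmptyElim, isEmptyElim⟩
    choose ix hi using m1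
    obtain ⟨Q, q1, q2⟩ := blow (A := Finset (Fin k → F)) hu fun b => (s b).1
    have hβ : ∀ a, ∃ b, ∀ v, Q a = some v → (s b).1 = v := fun a => by
      rcases h : Q a with _ | v
      · exact ⟨⟨0, u0⟩, by simp⟩
      · obtain ⟨b, hb⟩ := q1 a v h
        exact ⟨b, fun x hx => hb.trans (Option.some.inj hx)⟩
    choose β hβ using hβ
    obtain ⟨R, r1, r2⟩ := h2 (fun a => ix (s (β a)))
      ((card_le_card (t := (univ.image s).image ix) fun x hx => by
        obtain ⟨a, -, rfl⟩ := mem_image.1 hx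
        exact mem_image_of_mem _ (mem_image_of_mem _ (mem_univ _))).trans (card_image_le.trans hd))
    obtain ⟨ρ, p1, p2⟩ := q2 fun a => (R a).image G.col
    have c : ∀ v, Fintype.card {b // v ∈ ρ b} ≤ Fintype.card (Fin (M v)) := fun v => by
      rw [Fintype.card_fin, Fintype.card_subtype]
      by_cases h : m v = 0
      · refine (card_eq_zero.2 (filter_eq_empty_iff.2 fun b _ hb => ?_)).le.trans (Nat.zero_le _)
        obtain ⟨a, -, ha⟩ := p1 b
        rw [← ha] at hb
        obtain ⟨l, -, rfl⟩ := mem_image.1 hb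
        exact m0 l h
      · simp only [M, if_neg h]
        rw [Nat.le_div_iff_mul_le ht]
        have := p2 {σ | v ∈ σ}
        simp only [mem_filter, mem_univ, true_and] at this
        refine this.trans (Nat.add_le_add_right (Nat.mul_le_mul_right _ ?_) _)
        refine card_le_card_of_forall_subsingleton (fun a l => l ∈ R a) (fun a ha => ?_)
          fun l _ a ha b hb => ?_
        · obtain ⟨l, l1, l2⟩ := mem_image.1 (mem_filter.1 ha).2
          exact ⟨l, by simpa using l2, l1⟩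
        · by_contra hn
          exact disjoint_left.1 (r1 a b hn) ha.2 hb.2
    have ι := fun v => (Function.Embedding.nonempty_of_card_le (c v)).some
    refine ⟨fun b => {l | ∃ h : l.1 ∈ ρ b, ι l.1 ⟨b, h⟩ = l.2}, fun a b hab => ?_, fun b => ?_⟩
    · refine disjoint_left.2 fun l ha hb => hab ?_
      obtain ⟨a1, a2⟩ := (mem_filter.1 ha).2
      obtain ⟨b1, b2⟩ := (mem_filter.1 hb).2
      exact congrArg Subtype.val ((ι l.1).injective (a2.trans b2.symm))
    · obtain ⟨a, a1, ha⟩ := p1 b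
      have e : G.col (ix (s (β a))) = (s b).1 := (hi _).trans (hβ a _ a1)
      refine e ▸ span_mono ?_ (r2 a)
      rintro _ ⟨l, hl, rfl⟩
      have h : G.col l ∈ ρ b := ha ▸ mem_image_of_mem _ hl
      exact ⟨⟨_, ι _ ⟨b, h⟩⟩, by simpa using h, rfl⟩
  have sm : ∑ v, m v = n := (sum_card_fiberwise_eq_card_filter univ univ G.col).trans (by simp)
  calc t * ASD F k d u ≤ t * ∑ v, M v := Nat.mul_le_mul_left _ (by simpa using le)
    _ ≤ ∑ v, (m v * u + T * t) := by
        rw [mul_sum]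
        refine sum_le_sum fun v _ => ?_
        by_cases h : m v = 0
        · simp [M, h]
        · simp only [M, if_neg h]
          exact Nat.mul_div_le _ _
    _ = _ := by
        rw [sum_add_distrib, ← sum_mul, sm, sum_const, card_univ, smul_eq_mul]
        ring

theorem scaled [Fintype F] (k d t u : ℕ) (ht : 1 ≤ t) :
    t * ASD F k d u ≤ u * ASD F k d t + Fintype.card (Fin k → F) *
      (Fintype.card (Fin k → F) * (Fintype.card (Finset (Fin k → F)) + 1)) * t := by
  have h1 := down (F := F) k d ((u + 1) * t) u (Nat.mul_pos (Nat.succ_pos _) ht) (by nlinarith)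
  have h2 := Nat.mul_le_mul_left u (copies (F := F) k d t (u + 1) (Nat.succ_pos _))
  refine Nat.le_of_mul_le_mul_left ?_ (Nat.succ_pos u)
  simp only [Nat.succ_eq_add_one]
  nlinarith

end Pool.Agent.FS.PirScale
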